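import Pool.Agent.Lib.MP_bbf27c_co.Owner
import Pool.Agent.Lib.MP_bbf27c_co.Reply

/-!
# Five colours when the 3-neighbours of 4-vertices have small other neighbours

If all degrees are at most four, every vertex of degree four has at most two neighbours of degree
four, and every vertex of degree three adjacent to a vertex `x` of degree four has its neighbours
other than `x` of degree at most two, then Alice, moving first, wins the edge colouring game with
five colours.
-/

namespace Pool.Agent.Results.MP_bbf27c_co.PendantThreeNeighbours

open Finset Pool.Agent.MP_bbf27c_co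

theorem result {V : Type*} [Fintype V] (G : SimpleGraph V) [DecidableRel G.Adj]
    (h4 : ∀ v, G.degree v ≤ 4)
    (hpath : ∀ v, G.degree v = 4 → {w | G.Adj v w ∧ G.degree w = 4}.ncard ≤ 2)
    (hleg : ∀ x v u, G.degree x = 4 → G.Adj x v → G.degree v = 3 → G.Adj v u → u ≠ x →
      G.degree u ≤ 2) :
    AliceWinsGame G 5 ∧ gameChromaticIndex G ≤ 5 := by
  classical
  have hdg : ∀ v, dg G v = G.degree v := by
    intro v
    rw [dg, ← SimpleGraph.card_neighborFinset_eq_degree]
    congr 1
    ext w
    simp
  let S : SimpleGraph V :=
    { Adj := fun x y => G.Adj x y ∧ dg G x = 4 ∧ dg G y = 4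
      symm := ⟨fun x y h => ⟨h.1.symm, h.2.2, h.2.1⟩⟩
      loopless := ⟨fun x h => G.loopless.irrefl x h.1⟩ }
  have hfour : ∀ x, dg G x = 4 → (univ.filter fun w => G.Adj x w ∧ dg G w = 4).card ≤ 2 := by
    intro x hx
    have h := hpath x (by rw [← hdg]; exact hx)
    rw [Set.ncard_eq_toFinset_card'] at h
    refine le_trans (le_of_eq ?_) h
    congr 1
    ext w
    simp [hdg]
  have hS : ∀ x, (univ.filter fun w => S.Adj x w).card ≤ 2 := by
    intro x
    by_cases hx : dg G x = 4
    · refine le_trans (card_le_card ?_) (hfour x hx)
      intro w hw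
      simp only [mem_filter, mem_univ, true_and] at hw ⊢
      exact ⟨hw.1, hw.2.2⟩
    · have : (univ.filter fun w => S.Adj x w) = ∅ := by
        ext w
        simp only [mem_filter, mem_univ, true_and, notMem_empty, iff_false]
        exact fun h => hx h.2.1
      rw [this]; simp
  obtain ⟨Own, o1, o2, o3, o4⟩ := exists_owner S (by
    intro x
    convert hS x)
  have hset : Setup G Own := by
    refine ⟨fun v => by rw [hdg]; exact h4 v, ?_, ?_, o1, o2, ?_, ?_⟩
    · intro x hx
      have h := hfour x hx
      have h2 : (univ.filter fun w => G.Adj x w ∧ dg G w = 4).card +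
          (univ.filter fun w => G.Adj x w ∧ dg G w ≠ 4).card = 4 := by
        rw [← hx]
        conv_rhs => rw [dg]
        rw [← card_union_of_disjoint]
        · congr 1
          ext w
          simp only [mem_union, mem_filter, mem_univ, true_and]
          tauto
        · rw [disjoint_left]
          intro w hw hw'
          simp only [mem_filter, mem_univ, true_and] at hw hw'
          exact hw'.2 hw.2
      have h3 : 2 ≤ (univ.filter fun w => G.Adj x w ∧ dg G w ≠ 4).card := by omega
      convert h3
    · intro x v u hxv hx hv hvu hux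
      rw [hdg] at hx hv ⊢
      exact hleg x v u hx hxv hv hvu hux
    · intro x y h hx hy
      exact o3 x y ⟨h, hx, hy⟩
    · intro x y z hx hy hyd hno hz hzd hno'
      exact o4 x y z ⟨hy, hx, hyd⟩ hno ⟨hz, hx, hzd⟩ hno'
  have hw := wins_first hset
  exact ⟨hw, Nat.sInf_le ⟨by norm_num, hw⟩⟩

end Pool.Agent.Results.MP_bbf27c_co.PendantThreeNeighbours
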